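import Pool.Agent.Helper41.SQC.Goals

/-!
# MP_bb32d1_al, stage C, packet RED: the reduction of the deformed maps

`c_red : S_RED`.
-/

set_option autoImplicit false

namespace Pool.Agent.Helper20.SQC

noncomputable section

open Matrix Pool.Agent.Helper19.SQ Pool.Agent.Helper34.SQ Pool.Agent.Helper41.SQ
  Pool.Agent.Helper4.SQ Pool.Agent.Helper41.SQC

section

variable {B : Type} [CommRing B] [Algebra ℂ B]

theorem algMap_eq (c : ℂ) :
    algebraMap ℂ (FB B) c = algebraMap B (FB B) (algebraMap ℂ B c) := rfl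

/-- `red` as a `ℂ`-algebra map. -/
def redA (N l : ℕ) (q : ℂ) (aug : B →ₐ[ℂ] ℂ) : FB B →ₐ[ℂ] A N l q :=
  { red N l q aug with
    commutes' := fun c => by
      show red N l q aug (algebraMap ℂ (FB B) c) = _
      rw [algMap_eq, red_algebraMap, aug.commutes]
      rfl }

variable {N l : ℕ} {q : ℂ} (aug : B →ₐ[ℂ] ℂ)

theorem redA_apply (x : FB B) : redA N l q aug x = red N l q aug x := rfl

theorem red_smul (c : ℂ) (x : FB B) : red N l q aug (c • x) = c • red N l q aug x :=
  map_smul (redA N l q aug) c x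

theorem red_smulB (b : B) (x : FB B) (hb : aug b = 1) :
    red N l q aug (b • x) = red N l q aug x := by
  rw [Algebra.smul_def, map_mul, red_algebraMap, hb, map_one, one_mul]

theorem red_alg1 (b : B) (hb : aug b = 1) :
    red N l q aug (algebraMap B (FB B) b) = 1 := by
  rw [red_algebraMap, hb, map_one]

theorem red_ki (j : ℕ) : red N l q aug (ki l (xK B) j) = ki l (gK N l q) j := by
  unfold ki
  rw [map_pow, red_K]

theorem red_rv (i j : ℕ) : red N l q aug (rv q (xE B) i j) = rv q (gE N l q) i j := by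
  have h := rv_map q (redA N l q aug) (xE B) i j
  rw [redA_apply] at h
  rw [← h]
  congr 1
  funext k
  exact (red_E N l q aug k).symm ▸ rfl

theorem red_rvo (i j : ℕ) : red N l q aug (rvo q (xF B) i j) = rvo q (gF N l q) i j := by
  have h := rvo_map q (redA N l q aug) (xF B) i j
  rw [redA_apply] at h
  rw [← h]
  congr 1
  funext k
  exact (red_F N l q aug k).symm ▸ rfl

theorem red_Yent (a b : ℕ) :
    red N l q aug (Yent q (xF B) (xK B) a b) = Yent q (gF N l q) (gK N l q) a b := by
  unfold Yent
  split_ifs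
  · exact red_K N l q aug a
  · rw [red_smul, map_mul, red_K, red_rvo]
  · exact map_zero _

theorem red_Lent (a b : ℕ) :
    red N l q aug (Lent q (xE B) (xK B) a b) = Lent q (gE N l q) (gK N l q) a b := by
  unfold Lent
  split_ifs
  · exact red_K N l q aug a
  · rw [red_smul, map_mul, red_K, red_rv]
  · exact map_zero _

theorem red_surj : Function.Surjective (red N l q aug) := by
  intro a
  refine A_induction (P := fun a => ∃ x, red N l q aug x = a) (fun c => ?_)
    (fun i => ⟨_, red_E N l q aug i⟩) (fun i => ⟨_, red_F N l q aug i⟩)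
    (fun i => ⟨_, red_K N l q aug i⟩) ?_ ?_ a
  · refine ⟨algebraMap B (FB B) (algebraMap ℂ B c), ?_⟩
    rw [red_algebraMap, aug.commutes]
    rfl
  · rintro a b ⟨x, rfl⟩ ⟨y, rfl⟩
    exact ⟨x + y, map_add _ x y⟩
  · rintro a b ⟨x, rfl⟩ ⟨y, rfl⟩
    exact ⟨x * y, map_mul _ x y⟩

/-- `red` on matrices. -/
def redM (N l : ℕ) (q : ℂ) (aug : B →ₐ[ℂ] ℂ) : Mat N (FB B) →+* Mat N (A N l q) :=
  (red N l q aug).mapMatrix

theorem redM_apply (M : Mat N (FB B)) (i j : Fin (N + 1)) :
    redM N l q aug M i j = red N l q aug (M i j) := rfl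

variable (p : Pr B)

theorem aug_inv {a b : B} (h : a * b = 1) (ha : aug a = 1) : aug b = 1 := by
  have := congrArg aug h
  rwa [map_mul, ha, one_mul, map_one] at this

theorem redM_algebraMap (b : B) :
    redM N l q aug (algebraMap B (Mat N (FB B)) b)
      = algebraMap ℂ (Mat N (A N l q)) (aug b) := by
  ext i j
  rw [redM_apply, Matrix.algebraMap_matrix_apply, Matrix.algebraMap_matrix_apply]
  split_ifs
  · exact red_algebraMap N l q aug b
  · exact map_zero _

theorem redM_dE (k : ℕ) : redM N l q aug (dE N q (xE B) k) = dE N q (gE N l q) k := by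
  ext i j
  rw [redM_apply]
  unfold dE
  rw [Matrix.of_apply, Matrix.of_apply, map_add]
  congr 1
  · split_ifs
    · rw [red_smul, red_E]
    · exact map_zero _
  · split_ifs
    · exact map_one _
    · exact map_zero _

theorem redM_eE (k : ℕ) : redM N l q aug (eE N q (xE B) k) = eE N q (gE N l q) k := by
  ext i j
  rw [redM_apply]
  unfold eE
  rw [Matrix.of_apply, Matrix.of_apply, map_add]
  congr 1
  · split_ifs
    · rw [red_smul, red_E]
    · exact map_zero _
  · split_ifs
    · rw [red_smul, map_one]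
    · exact map_zero _

theorem redM_dK (k : ℕ) : redM N l q aug (dK N q (xK B) k) = dK N q (gK N l q) k := by
  ext i j
  rw [redM_apply]
  unfold dK
  rw [Matrix.of_apply, Matrix.of_apply]
  by_cases h : i = j
  · rw [if_pos h, if_pos h, red_smul, red_K]
  · rw [if_neg h, if_neg h, map_zero]

theorem redM_eK (k : ℕ) : redM N l q aug (eK N q (xK B) k) = eK N q (gK N l q) k := by
  ext i j
  rw [redM_apply]
  unfold eK
  rw [Matrix.of_apply, Matrix.of_apply]
  by_cases h : i = j
  · rw [if_pos h, if_pos h, red_smul, red_K]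
  · rw [if_neg h, if_neg h, map_zero]

theorem redM_dFt (t' : ℕ → FB B) (ht : ∀ j, red N l q aug (t' j) = 1) (k : ℕ) :
    redM N l q aug (dFt N l t' (xF B) (xK B) k) = dF N l (gF N l q) (gK N l q) k := by
  ext i j
  rw [redM_apply]
  unfold dFt dF
  rw [Matrix.of_apply, Matrix.of_apply, map_add]
  congr 1
  · split_ifs
    · exact red_F N l q aug k
    · exact map_zero _
  · split_ifs
    · rw [map_mul, map_mul, ht, one_mul, red_K, red_ki]
    · exact map_zero _

theorem redM_eFt (t' : ℕ → FB B) (ht : ∀ j, red N l q aug (t' j) = 1) (k : ℕ) :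
    redM N l q aug (eFt N l q t' (xF B) (xK B) k) = eF N l q (gF N l q) (gK N l q) k := by
  ext i j
  rw [redM_apply]
  unfold eFt eF
  rw [Matrix.of_apply, Matrix.of_apply, map_add]
  congr 1
  · split_ifs
    · exact red_F N l q aug k
    · exact map_zero _
  · split_ifs
    · rw [red_smul, map_mul, map_mul, ht, one_mul, red_K, red_ki]
    · exact map_zero _

variable {p}

theorem aug_t' (hκ : ∀ j, aug (p.κ j) = 1) (k : ℕ) : aug (p.t' k) = 1 := by
  unfold Pr.t'
  rw [map_mul, hκ, aug_inv aug (p.κκ k) (hκ k), one_mul]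

theorem red_dl (D : Dl N l q) (hκ : ∀ j, aug (p.κ j) = 1) (x : FB B) :
    redM N l q aug (dlB N l q p x) = D.dl (red N l q aug x) := by
  induction x using FreeAlgebra.induction with
  | grade0 r =>
    rw [AlgHom.commutes, redM_algebraMap, red_algebraMap, AlgHom.commutes]
  | grade1 g =>
    unfold dlB
    rw [FreeAlgebra.lift_ι_apply]
    cases g with
    | E i =>
      show redM N l q aug (dE N q (xE B) i) = D.dl (red N l q aug (xE B i))
      rw [redM_dE, red_E, D.dl_E]
    | F i =>
      show redM N l q aug (dFt N l (fun k => algebraMap B (FB B) (p.t' k)) (xF B) (xK B) i)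
        = D.dl (red N l q aug (xF B i))
      rw [redM_dFt aug _ (fun j => red_alg1 aug _ (aug_t' aug hκ j)), red_F, D.dl_F]
    | K i =>
      show redM N l q aug (dK N q (xK B) i) = D.dl (red N l q aug (xK B i))
      rw [redM_dK, red_K, D.dl_K]
  | mul a b ha hb => rw [map_mul, map_mul, ha, hb, map_mul, map_mul]
  | add a b ha hb => rw [map_add, map_add, ha, hb, map_add, map_add]

theorem red_ep (D : Dl N l q) (hκ : ∀ j, aug (p.κ j) = 1) (x : FB B) :
    redM N l q aug (epB N l q p x) = D.ep (red N l q aug x) := by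
  induction x using FreeAlgebra.induction with
  | grade0 r =>
    rw [AlgHom.commutes, redM_algebraMap, red_algebraMap, AlgHom.commutes]
  | grade1 g =>
    unfold epB
    rw [FreeAlgebra.lift_ι_apply]
    cases g with
    | E i =>
      show redM N l q aug (eE N q (xE B) i) = D.ep (red N l q aug (xE B i))
      rw [redM_eE, red_E, D.ep_E]
    | F i =>
      show redM N l q aug (eFt N l q (fun k => algebraMap B (FB B) (p.t' k)) (xF B) (xK B) i)
        = D.ep (red N l q aug (xF B i))
      rw [redM_eFt aug _ (fun j => red_alg1 aug _ (aug_t' aug hκ j)), red_F, D.ep_F]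
    | K i =>
      show redM N l q aug (eK N q (xK B) i) = D.ep (red N l q aug (xK B i))
      rw [redM_eK, red_K, D.ep_K]
  | mul a b ha hb => rw [map_mul, map_mul, ha, hb, map_mul, map_mul]
  | add a b ha hb => rw [map_add, map_add, ha, hb, map_add, map_add]

theorem red_fB (D : Dl N l q) (hκ : ∀ j, aug (p.κ j) = 1) (hs : ∀ j, aug (p.s j) = 1)
    (a : FB B) :
    red N l q aug (fB N l q p a) = Matrix.trace (D.dl (red N l q aug a)) := by
  show red N l q aug (∑ i : Fin (N + 1), p.s i • dlB N l q p a i i) = _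
  rw [map_sum, ← red_dl aug D hκ a]
  unfold Matrix.trace
  refine Finset.sum_congr rfl fun i _ => ?_
  rw [red_smulB aug _ _ (hs i)]
  rfl

theorem red_eB (D : Dl N l q) (hκ : ∀ j, aug (p.κ j) = 1) (hs : ∀ j, aug (p.s j) = 1)
    (a : FB B) :
    red N l q aug (eB N l q p a) = Matrix.trace (D.ep (red N l q aug a)) := by
  show red N l q aug (∑ i : Fin (N + 1), p.si i • epB N l q p a i i) = _
  rw [map_sum, ← red_ep aug D hκ a]
  unfold Matrix.trace
  refine Finset.sum_congr rfl fun i _ => ?_
  rw [red_smulB aug _ _ (aug_inv aug (p.ss i) (hs i))]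
  rfl

theorem red_cB (hκ : ∀ j, aug (p.κ j) = 1) :
    red N l q aug (cB N q p) = ∑ a : Fin (N + 1), (q⁻¹ ^ (2 * (a : ℕ))) • Xm N l q a a := by
  unfold cB c1g
  rw [map_sum]
  refine Finset.sum_congr rfl fun a _ => ?_
  unfold Xm
  rw [map_sum, Matrix.mul_apply, Finset.smul_sum]
  refine Finset.sum_congr rfl fun b _ => ?_
  rw [red_smul, map_mul, map_mul, red_alg1 aug _ (hκ _), red_alg1 aug _ (hκ _), one_mul,
    one_mul, map_mul, red_Yent, red_Lent]
  rfl

end

theorem c_red : S_RED := by
  intro N l q D _ B _ _ aug p hκ hs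
  exact ⟨red_surj aug, fun a => red_fB aug D hκ hs a, fun a => red_eB aug D hκ hs a,
    red_cB aug hκ⟩

end

end Pool.Agent.Helper20.SQC
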